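import Mathlib
import Pool.Agent.Lib.Pff0a55L.Main

/-!
# The free energies of interacting self-avoiding walks and polygons are equal

`ℤ^d` is a simple graph, walks are its paths (`SimpleGraph.Walk.IsPath`) from the origin, polygons are its cycles
(`SimpleGraph.Walk.IsCycle`, as subgraphs), counted up to translation, and a contact is an edge of the lattice between two vertices
of the walk or polygon which is not one of its edges.  For all `d ≥ 2` and `β ≥ 0` the free energy of the walks exists and is equal
to the free energy of the polygons.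
-/

set_option autoImplicit false

open Filter Topology
open Pool.Agent.Lib.Pff0a55L

namespace Pool.Agent.Results.MP_ff0a55_pr.FreeEnergies

theorem result (d : ℕ) (hd : 2 ≤ d) :
    -- the sums `Z_n` and `Z⁰_n` are over finite sets, which are nonempty (for `Z⁰_n` if `n ≥ 4` is even)
    (∀ n, (walks d n).Finite ∧ (walks d n).Nonempty ∧ (translates '' polygons d n).Finite) ∧
    (∀ m, 2 ≤ m → (polygons d (2 * m)).Nonempty) ∧
    -- `F(β) = lim F_n(β)` exists and is equal to `F⁰(β) = lim F⁰_n(β)`, `n` even
    ∀ β : ℝ, 0 ≤ β → ∃ L : ℝ,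
      Tendsto (fun n : ℕ => F d n β) atTop (𝓝 L) ∧
      Tendsto (fun m : ℕ => F0 d (2 * m) β) atTop (𝓝 L) :=
  ⟨fun n => ⟨walks_finite d n, walks_nonempty hd n, classes_finite d n⟩,
    fun m hm => polygons_nonempty hd m hm, fun _ hβ => tendsto_F hd hβ⟩

end Pool.Agent.Results.MP_ff0a55_pr.FreeEnergies
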